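import Pool.Agent.Q258.MT.Asm

set_option autoImplicit false

/-!
The monotone triangle polynomial at a row with one hole and one descent.
-/

namespace Pool.Agent.Results.MP_0e5572_co.HoleDescent

open Pool.Agent.Q258.MT

/-- `A_{n+1, j+1}`: the number of alternating sign matrices of size `n + 1` whose first row has its `1`
in the column `j` (counted from `0`). -/
noncomputable def refinedASM (n : ℕ) (j : Fin (n + 1)) : ℕ :=
  Nat.card {a : Fin (n + 1) → Fin (n + 1) → ℤ // IsASM a ∧ a 0 j = 1}

/-- The sequence `h_{n+1,i}` of length `n + 2`: the sequence `1, 2, ..., n + 1` with an additional entry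
`i + 1` directly before the entry `i`. -/
def h (n i : ℕ) : Fin (n + 2) → ℤ :=
  fun q => if (q : ℕ) + 1 < i then (q : ℕ) + 1 else if (q : ℕ) + 1 = i then (i : ℤ) + 1 else (q : ℕ)

theorem ofFn_up (m : ℕ) : ∀ (a : ℤ) (f : Fin m → ℤ), (∀ i, f i = a + (i : ℕ)) →
    List.ofFn f = up a m := by
  induction m with
  | zero => intro a f _; rfl
  | succ m ih =>
    intro a f hf
    rw [List.ofFn_succ, up, ih (a + 1) _ (fun i => by rw [hf, Fin.val_succ]; push_cast; ring), hf 0]
    simp

theorem ofFn_h_aux (i : ℕ) : ∀ (m N : ℕ) (a : ℤ) (f : Fin N → ℤ), N = i + m + 3 →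
    (∀ q : Fin N, f q = if (q : ℕ) < i then a + (q : ℕ) else if (q : ℕ) = i then a + i + 1 else
      a + (q : ℕ) - 1) → List.ofFn f = up a i ++ (a + i + 1) :: up (a + i) (m + 2) := by
  induction i with
  | zero =>
    intro m N a f hN hf
    obtain rfl : N = (m + 2) + 1 := by omega
    rw [List.ofFn_succ]
    simp only [up, List.nil_append, Nat.cast_zero, add_zero]
    have h0 := hf 0
    simp only [Fin.val_zero, lt_irrefl, if_false, if_true, Nat.cast_zero, add_zero] at h0
    rw [h0]
    congr 1
    apply ofFn_up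
    intro q
    rw [hf]
    simp only [Fin.val_succ]
    rw [if_neg (by omega), if_neg (by omega)]
    push_cast
    ring
  | succ i ih =>
    intro m N a f hN hf
    obtain ⟨N, rfl⟩ : ∃ N', N = N' + 1 := ⟨N - 1, by omega⟩
    rw [List.ofFn_succ, up, List.cons_append]
    have h0 := hf 0
    simp only [Fin.val_zero, Nat.zero_lt_succ, if_true, Nat.cast_zero, add_zero] at h0
    rw [h0]
    congr 1
    rw [ih m N (a + 1) (fun q => f q.succ) (by omega) (fun q => by
      rw [hf]
      simp only [Fin.val_succ, Nat.add_lt_add_iff_right, Nat.add_right_cancel_iff]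
      split_ifs <;> push_cast <;> ring)]
    congr 2
    · push_cast; ring
    · congr 1
      push_cast; ring

/-- **The value at a row with one hole and one descent.** For every `n` there is exactly one monotone
triangle polynomial in `n + 1` variables. For all `1 ≤ i ≤ n` its value at `h_{n+1,i}` (`n + 2`
variables) is the sum of `(i - j) A_{n+1,j}` over `1 ≤ j ≤ n + 1`. -/
theorem result :
    (∀ n : ℕ, ∃! p : MvPolynomial (Fin (n + 1)) ℚ, IsMTPoly n p) ∧
    ∀ (n : ℕ) (p : MvPolynomial (Fin (n + 2)) ℚ), IsMTPoly (n + 1) p → ∀ i : ℕ, 1 ≤ i → i ≤ n →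
      MvPolynomial.eval (fun q => (h n i q : ℚ)) p =
        ∑ j : Fin (n + 1), ((i : ℚ) - ((j : ℕ) + 1)) * refinedASM n j := by
  refine ⟨existsUnique_mtPoly, fun n p hp i hi hin => ?_⟩
  obtain ⟨i, rfl⟩ : ∃ i', i = i' + 1 := ⟨i - 1, by omega⟩
  obtain ⟨m, rfl⟩ : ∃ m, n = i + m + 1 := ⟨n - i - 1, by omega⟩
  rw [hp.eval_eq, ofFn_h_aux i m _ 1 _ rfl (fun q => ?_), hole_value i m _ rfl, Finset.sum_range]
  · apply Finset.sum_congr rfl
    intro j _
    rw [refinedASM, asm_card]
    push_cast
    ring
  · simp only [h]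
    split_ifs <;> omega

end Pool.Agent.Results.MP_0e5572_co.HoleDescent
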